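import Pool.Agent.Helper52.KT.St

/-!
# Project KT, module LU: last arc, radius 1
-/

set_option autoImplicit false

namespace Pool.Agent.Helper95.KT

open Pool.Agent.Helper26.Kempe Pool.Agent.Helper52.KT Pool.Agent.Helper52.KT.St
open Pool.Agent.Helper52.KR (N Zc Mn Hs)
open scoped Classical

theorem hLU : LU := by
  intro V _ k G M f o z y0 L c x hf hV hcz hcy hx hn κ hκ hadj he
  have ha := (vd_cons.1 hV).1
  have hadjz : G.Adj y0 z := ha.1
  have hcol := Bc_col hκ
  have hW := ha.2.2.2.1 hκ
  rcases hx with hx | hx
  · rw [hx, Equiv.swap_apply_left] at he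
    rcases hcol with h | h
    · rw [h, Equiv.swap_apply_left] at he
      exact hcz he
    · rw [h, Equiv.swap_apply_right] at he
      exact hcy he
  · rw [hx, Equiv.swap_apply_right] at he
    have hκ0 : f κ = f y0 := by
      rcases hcol with h | h
      · exact h
      · rw [h, Equiv.swap_apply_right] at he
        exact absurd he.symm (hf y0 z hadjz)
    unfold W1 at hW
    rw [Finset.mem_insert] at hW
    rcases hW with h | h
    · subst h
      exact hn ⟨hx, hadj⟩
    · rw [Pool.Agent.Helper52.KR.mem_N] at h
      exact hf y0 κ h hκ0.symm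

end Pool.Agent.Helper95.KT
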