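import Pool.Agent.Helper7.KT.St

set_option autoImplicit false

/-!
Module CEN: few vertices of large degree.
-/

namespace Pool.Agent.Helper95.KT

open Finset SimpleGraph Filter Topology
open EX Pool.Agent.Helper7.KT
open scoped Classical

theorem hCEN (hDCN : StDCN) : StCEN := by
  intro s t hs δ hδ
  refine ⟨⌈((t - 1 : ℕ) : ℝ) * (2 / δ) ^ s⌉₊, ?_⟩
  have hev : ∀ᶠ n : ℕ in atTop, (2 * s : ℝ) / δ ≤ n := by
    filter_upwards [eventually_ge_atTop ⌈(2 * s : ℝ) / δ⌉₊] with n hn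
    exact le_trans (Nat.le_ceil _) (by exact_mod_cast hn)
  filter_upwards [hev, eventually_ge_atTop 1] with n hn hn1
  intro Γ hK
  have hδn : (2 * s : ℝ) ≤ δ * n := by
    rw [div_le_iff₀ hδ] at hn
    linarith
  have h1 := hDCN (Fin n) Γ s t univ hK
  rw [card_univ, Fintype.card_fin] at h1
  have hd : 2 * s ≤ ⌈δ * n⌉₊ := by
    have : (2 * s : ℝ) ≤ (⌈δ * n⌉₊ : ℝ) := hδn.trans (Nat.le_ceil _)
    exact_mod_cast this
  have h2 : (Ct Γ δ).card * (⌈δ * n⌉₊).choose s ≤ ∑ v, (dg Γ univ v).choose s := by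
    calc (Ct Γ δ).card * (⌈δ * n⌉₊).choose s
        = ∑ _v ∈ Ct Γ δ, (⌈δ * n⌉₊).choose s := by rw [sum_const, smul_eq_mul]
      _ ≤ ∑ v ∈ Ct Γ δ, (dg Γ univ v).choose s := by
          refine sum_le_sum fun v hv => ?_
          unfold Ct at hv
          rw [mem_filter] at hv
          exact Nat.choose_le_choose s (Nat.ceil_le.2 hv.2)
      _ ≤ ∑ v, (dg Γ univ v).choose s :=
          sum_le_sum_of_subset (subset_univ _)
  have h3 : ((Ct Γ δ).card : ℝ) * ((⌈δ * n⌉₊).choose s : ℝ) ≤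
      ((t - 1 : ℕ) : ℝ) * (n.choose s : ℝ) := by
    exact_mod_cast h2.trans h1
  have h4 := UB.choose_ge ⌈δ * n⌉₊ s hd
  have h5 : (n.choose s : ℝ) ≤ (n : ℝ) ^ s / (s.factorial : ℝ) := Nat.choose_le_pow_div s n
  have hn0 : (0 : ℝ) < n := by exact_mod_cast hn1
  have h6 : (δ * n) ^ s ≤ (⌈δ * n⌉₊ : ℝ) ^ s :=
    pow_le_pow_left₀ (by positivity) (Nat.le_ceil _) s
  have hfac : (0 : ℝ) < (s.factorial : ℝ) := by exact_mod_cast Nat.factorial_pos s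
  have h7 : ((Ct Γ δ).card : ℝ) * ((δ * n) ^ s / (2 ^ s * (s.factorial : ℝ))) ≤
      ((t - 1 : ℕ) : ℝ) * ((n : ℝ) ^ s / (s.factorial : ℝ)) := by
    calc ((Ct Γ δ).card : ℝ) * ((δ * n) ^ s / (2 ^ s * (s.factorial : ℝ)))
        ≤ ((Ct Γ δ).card : ℝ) * ((⌈δ * n⌉₊).choose s : ℝ) := by
          refine mul_le_mul_of_nonneg_left (le_trans ?_ h4) (Nat.cast_nonneg _)
          exact div_le_div_of_nonneg_right h6 (by positivity)
      _ ≤ ((t - 1 : ℕ) : ℝ) * (n.choose s : ℝ) := h3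
      _ ≤ ((t - 1 : ℕ) : ℝ) * ((n : ℝ) ^ s / (s.factorial : ℝ)) :=
          mul_le_mul_of_nonneg_left h5 (Nat.cast_nonneg _)
  have h8 : ((Ct Γ δ).card : ℝ) ≤ ((t - 1 : ℕ) : ℝ) * (2 / δ) ^ s := by
    rw [mul_pow, div_pow] at *
    have hns : (0 : ℝ) < (n : ℝ) ^ s := by positivity
    have hδs : (0 : ℝ) < δ ^ s := by positivity
    have h2s : (0 : ℝ) < (2 : ℝ) ^ s := by positivity
    rw [← mul_div_assoc, le_div_iff₀ hδs]
    have h9 : ((Ct Γ δ).card : ℝ) * (δ ^ s * (n : ℝ) ^ s / (2 ^ s * (s.factorial : ℝ))) =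
        (((Ct Γ δ).card : ℝ) * δ ^ s / 2 ^ s) * ((n : ℝ) ^ s / (s.factorial : ℝ)) := by
      field_simp
    rw [h9] at h7
    have h10 := le_of_mul_le_mul_right h7 (by positivity)
    rw [div_le_iff₀ h2s] at h10
    exact h10
  have h11 : ((Ct Γ δ).card : ℝ) ≤ (⌈((t - 1 : ℕ) : ℝ) * (2 / δ) ^ s⌉₊ : ℝ) :=
    h8.trans (Nat.le_ceil _)
  exact_mod_cast h11

end Pool.Agent.Helper95.KT
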