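import Pool.Agent.Helper52.KT.St

/-!
# Project KT, module AC: accounting at the last vertex
-/

set_option autoImplicit false

namespace Pool.Agent.Helper95.KT

open Pool.Agent.Helper26.Kempe Pool.Agent.Helper52.KT Pool.Agent.Helper52.KT.St
open Pool.Agent.Helper52.KR (N Zc Mn Hs)
open scoped Classical

theorem hAC : AC := by
  intro hEC V _ k G W M D φ f o lam A A' A'' z y0 L hf hD hφ hlam hlA hA hA'' hI hV
  have hfz : f z ≠ o := (vd_cons.1 hV).1.2.1
  -- the colours
  set Γ : Finset (Fin k) := Finset.univ.filter (fun c => c ≠ o ∧ c ≠ f z) with hΓ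
  have hΓc : (Γ.card : ℝ) = (k : ℝ) - 2 := by
    have h1 : insert o (insert (f z) Γ) = Finset.univ := by
      ext c
      simp only [Finset.mem_insert, hΓ, Finset.mem_filter, Finset.mem_univ, true_and, iff_true]
      tauto
    have h2 : f z ∉ Γ := by simp [hΓ]
    have h3 : o ∉ insert (f z) Γ := by
      simp only [Finset.mem_insert, hΓ, Finset.mem_filter, Finset.mem_univ, true_and]
      rintro (h | h)
      · exact hfz h.symm
      · exact h.1 rfl
    have h4 : Γ.card + 2 = k := by
      have := congrArg Finset.card h1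
      rw [Finset.card_insert_of_notMem h3, Finset.card_insert_of_notMem h2, Finset.card_univ,
        Fintype.card_fin] at this
      omega
    have h5 : ((Γ.card + 2 : ℕ) : ℝ) = k := by rw [h4]
    push_cast at h5
    linarith
  -- weights out of z
  have hout : ∑ b ∈ ext G W M f o (z :: y0 :: L), wt G W M φ f o z b =
      ∑ c ∈ Γ, ∑ b ∈ (S G f z c).filter (fun b => Vd G W M f o (b :: z :: y0 :: L)),
        wt G W M φ f o z b := by
    have hm : ∀ b ∈ ext G W M f o (z :: y0 :: L), f b ∈ Γ := by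
      intro b hb
      have h1 := (vd_cons.1 (mem_ext.1 hb)).1
      rw [hΓ, Finset.mem_filter]
      exact ⟨Finset.mem_univ _, h1.2.1, (hf z b h1.1).symm⟩
    rw [← Finset.sum_fiberwise_of_maps_to hm]
    refine Finset.sum_congr rfl fun c _ => ?_
    refine Finset.sum_congr ?_ fun _ _ => rfl
    ext b
    simp only [Finset.mem_filter, mem_ext, mem_S]
    constructor
    · rintro ⟨h1, h2⟩
      exact ⟨⟨(vd_cons.1 h1).1.1, h2⟩, h1⟩
    · rintro ⟨⟨h1, h2⟩, h3⟩
      exact ⟨h3, h2⟩
  -- weights into z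
  have hin : ∑ y ∈ Finset.univ.filter (fun y => f y ≠ o), wt G W M φ f o y z =
      ∑ c ∈ Γ, ∑ y ∈ S G f z c, wt G W M φ f o y z := by
    set Y : Finset V := Finset.univ.filter (fun y => f y ≠ o ∧ G.Adj z y) with hY
    have h1 : ∑ y ∈ Finset.univ.filter (fun y => f y ≠ o), wt G W M φ f o y z =
        ∑ y ∈ Y, wt G W M φ f o y z := by
      symm
      apply Finset.sum_subset
      · intro y hy
        rw [hY, Finset.mem_filter] at hy
        rw [Finset.mem_filter]
        exact ⟨hy.1, hy.2.1⟩
      · intro y hy hy'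
        apply wt_zero
        intro ha
        apply hy'
        rw [hY, Finset.mem_filter]
        exact ⟨Finset.mem_univ _, (Finset.mem_filter.1 hy).2, ha.1.symm⟩
    rw [h1]
    have hm : ∀ y ∈ Y, f y ∈ Γ := by
      intro y hy
      rw [hY, Finset.mem_filter] at hy
      rw [hΓ, Finset.mem_filter]
      exact ⟨Finset.mem_univ _, hy.2.1, (hf z y hy.2.2).symm⟩
    rw [← Finset.sum_fiberwise_of_maps_to hm]
    refine Finset.sum_congr rfl fun c hc => ?_
    refine Finset.sum_congr ?_ fun _ _ => rfl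
    ext y
    simp only [hY, Finset.mem_filter, Finset.mem_univ, true_and, mem_S]
    constructor
    · rintro ⟨⟨h1, h2⟩, h3⟩
      exact ⟨h2, h3⟩
    · rintro ⟨h1, h2⟩
      refine ⟨⟨?_, h1⟩, h2⟩
      rw [h2]
      exact (Finset.mem_filter.1 hc).2.1
  -- one colour
  have hcol : ∀ c ∈ Γ, A - A' * (S G f z c).card - A'' * (S G f z c ∩ N G y0).card -
      (if c ∈ Exc G f M o z y0 L then A else 0) ≤
      ∑ b ∈ (S G f z c).filter (fun b => Vd G W M f o (b :: z :: y0 :: L)), wt G W M φ f o z b -
        lam * ∑ y ∈ S G f z c, wt G W M φ f o y z := by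
    intro c hc
    have hc' := (Finset.mem_filter.1 hc).2
    by_cases hE : c ∈ Exc G f M o z y0 L
    · rw [if_pos hE]
      have h1 : 0 ≤ ∑ b ∈ (S G f z c).filter (fun b => Vd G W M f o (b :: z :: y0 :: L)),
          wt G W M φ f o z b := Finset.sum_nonneg fun b _ => wt_nonneg (fun n => (hφ n).1) _ _
      have h2 : ∑ y ∈ S G f z c, wt G W M φ f o y z ≤ (S G f z c).card := by
        calc ∑ y ∈ S G f z c, wt G W M φ f o y z ≤ ∑ y ∈ S G f z c, (1 : ℝ) :=
              Finset.sum_le_sum fun y _ => wt_le_one (fun n => (hφ n).2) _ _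
          _ = _ := by simp
      have h3 : lam * ∑ y ∈ S G f z c, wt G W M φ f o y z ≤ A' * (S G f z c).card := by
        calc lam * ∑ y ∈ S G f z c, wt G W M φ f o y z ≤ lam * (S G f z c).card :=
              mul_le_mul_of_nonneg_left h2 hlam
          _ ≤ _ := mul_le_mul_of_nonneg_right hlA (Nat.cast_nonneg _)
      have h4 : 0 ≤ A'' * ((S G f z c ∩ N G y0).card : ℝ) := by positivity
      linarith
    · rw [if_neg hE, sub_zero]
      have hE' : ¬ (c = f y0 ∨ M < (S G f z c).card ∨ ∃ m, Cx G f M ((y0 :: L).drop m) z c) := by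
        intro h
        apply hE
        unfold Exc
        rw [Finset.mem_filter]
        exact ⟨Finset.mem_univ _, hc'.1, hc'.2, h⟩
      push Not at hE'
      exact hI z y0 L hV c hc'.1 hc'.2 hE'.1 hE'.2.2 hE'.2.1
  rw [hout, hin, Finset.mul_sum, ← Finset.sum_sub_distrib]
  refine le_trans ?_ (Finset.sum_le_sum hcol)
  rw [Finset.sum_sub_distrib, Finset.sum_sub_distrib, Finset.sum_sub_distrib, Finset.sum_const,
    nsmul_eq_mul, hΓc, ← Finset.mul_sum, ← Finset.mul_sum]
  -- the number of exceptional colours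
  have hEx : ∑ c ∈ Γ, (if c ∈ Exc G f M o z y0 L then A else 0) =
      (Exc G f M o z y0 L).card * A := by
    rw [← Finset.sum_filter, Finset.sum_const, nsmul_eq_mul]
    congr 2
    congr 1
    ext c
    simp only [Finset.mem_filter, hΓ, Finset.mem_univ, true_and, Exc]
    tauto
  have hEc := hEC V k G f M D o z y0 L hD
  -- sums of the degrees
  have hN : ∑ c ∈ Γ, ((S G f z c).card : ℝ) ≤ D := by
    have h1 : ∑ c ∈ Γ, (S G f z c).card ≤ (N G z).card := by
      rw [Finset.card_eq_sum_card_fiberwise (f := f) (t := Finset.univ) (s := N G z)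
        (fun _ _ => Finset.mem_univ _)]
      refine le_trans (le_of_eq ?_) (Finset.sum_le_sum_of_subset (Finset.subset_univ Γ))
      refine Finset.sum_congr rfl fun c _ => ?_
      congr 1
      ext y
      simp [mem_S, Pool.Agent.Helper52.KR.mem_N]
    calc ∑ c ∈ Γ, ((S G f z c).card : ℝ) = ((∑ c ∈ Γ, (S G f z c).card : ℕ) : ℝ) := by push_cast; rfl
      _ ≤ ((N G z).card : ℝ) := by exact_mod_cast h1
      _ ≤ D := by exact_mod_cast hD z
  have hNN : ∑ c ∈ Γ, ((S G f z c ∩ N G y0).card : ℝ) ≤ (N G z ∩ N G y0).card := by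
    have h1 : ∑ c ∈ Γ, (S G f z c ∩ N G y0).card ≤ (N G z ∩ N G y0).card := by
      rw [Finset.card_eq_sum_card_fiberwise (f := f) (t := Finset.univ) (s := N G z ∩ N G y0)
        (fun _ _ => Finset.mem_univ _)]
      refine le_trans (le_of_eq ?_) (Finset.sum_le_sum_of_subset (Finset.subset_univ Γ))
      refine Finset.sum_congr rfl fun c _ => ?_
      congr 1
      ext y
      simp only [Finset.mem_inter, mem_S, Pool.Agent.Helper52.KR.mem_N, Finset.mem_filter]
      tauto
    exact_mod_cast h1
  rw [hEx]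
  have hA' : 0 ≤ A' := hlam.trans hlA
  have e1 := mul_le_mul_of_nonneg_left hN hA'
  have e2 := mul_le_mul_of_nonneg_left hNN hA''
  have e3 := mul_le_mul_of_nonneg_left hEc hA
  nlinarith [e1, e2, e3]

end Pool.Agent.Helper95.KT
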